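import Mathlib

set_option autoImplicit false

/-!
# The Erdős-Rado canonical form of an order-invariant function of increasing sequences
-/

namespace Pool.Agent.J6H25.Canon

open Finset

/-- `u 0 < u 1 < … < u k ≤ N` -/
def Inc (k N : ℕ) (u : ℕ → ℕ) : Prop :=
  (∀ a b, a < b → b ≤ k → u a < u b) ∧ ∀ a, a ≤ k → u a ≤ N

theorem Inc.mono {k N N' : ℕ} {u : ℕ → ℕ} (h : Inc k N u) (hN : N ≤ N') : Inc k N' u :=
  ⟨h.1, fun a ha => (h.2 a ha).trans hN⟩

/-- `G` depends on the first `k + 1` terms. -/
def Dep (k : ℕ) (G : (ℕ → ℕ) → ℕ) : Prop := ∀ u v : ℕ → ℕ, (∀ a, a ≤ k → u a = v a) → G u = G v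

/-- Equality patterns of `G` are invariant under increasing maps. -/
def InvI (k M N : ℕ) (G : (ℕ → ℕ) → ℕ) : Prop :=
  ∀ w w' : ℕ → ℕ, Inc M N w → Inc M N w' → ∀ a b : ℕ → ℕ, Inc k M a → Inc k M b →
    (G (fun l => w (a l)) = G (fun l => w (b l)) ↔ G (fun l => w' (a l)) = G (fun l => w' (b l)))

/-- the model of a move of the coordinate `t`: before -/
def e₁ (t : ℕ) (l : ℕ) : ℕ := if l ≤ t then l else l + 1

/-- the model of a move of the coordinate `t`: after -/
def e₂ (t : ℕ) (l : ℕ) : ℕ := if l < t then l else l + 1

theorem e₁_inc {k M t : ℕ} (hM : k + 1 ≤ M) : Inc k M (e₁ t) := by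
  refine ⟨fun a b hab hb => ?_, fun a ha => ?_⟩ <;> simp only [e₁] <;> split_ifs <;> omega

theorem e₂_inc {k M t : ℕ} (hM : k + 1 ≤ M) : Inc k M (e₂ t) := by
  refine ⟨fun a b hab hb => ?_, fun a ha => ?_⟩ <;> simp only [e₂] <;> split_ifs <;> omega

theorem id_inc {M N : ℕ} (h : M ≤ N) : Inc M N (fun l => l) :=
  ⟨fun _ _ h _ => h, fun _ ha => ha.trans h⟩

/-- All moves of the coordinate `t` behave like the model. -/
theorem move {k M N m t s : ℕ} {G : (ℕ → ℕ) → ℕ} (hdep : Dep k G) (hinv : InvI k M N G)
    (hM : k + 1 ≤ M) (hN : m + M ≤ N) (ht : t ≤ k) {u : ℕ → ℕ} (hu : Inc k m u)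
    (hu' : Inc k m (Function.update u t s)) (hs : u t < s) :
    G u = G (Function.update u t s) ↔ G (e₁ t) = G (e₂ t) := by
  let w : ℕ → ℕ := fun l => if l ≤ t then u l else if l = t + 1 then s else
    if l ≤ k + 1 then u (l - 1) else m + l
  have hsm : s ≤ m := by
    have := hu'.2 t ht
    rwa [Function.update_self] at this
  have hw : Inc M N w := by
    refine ⟨fun a b hab hb => ?_, fun a ha => ?_⟩
    · simp only [w]
      by_cases h1 : b ≤ t
      · rw [if_pos (by omega), if_pos h1]
        exact hu.1 a b hab (by omega)
      · rw [if_neg h1]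
        by_cases h2 : b = t + 1
        · rw [if_pos (by omega), if_pos h2]
          rcases (show a < t ∨ a = t by omega) with h3 | rfl
          · exact (hu.1 a t h3 ht).trans hs
          · exact hs
        · rw [if_neg h2]
          by_cases h3 : b ≤ k + 1
          · rw [if_pos h3]
            by_cases h4 : a ≤ t
            · rw [if_pos h4]
              exact hu.1 a (b - 1) (by omega) (by omega)
            · rw [if_neg h4]
              by_cases h5 : a = t + 1
              · rw [if_pos h5]
                have := hu'.1 t (b - 1) (by omega) (by omega)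
                rwa [Function.update_self, Function.update_of_ne (by omega)] at this
              · rw [if_neg h5, if_pos (by omega)]
                exact hu.1 (a - 1) (b - 1) (by omega) (by omega)
          · rw [if_neg h3]
            split_ifs with h4 h5 h6
            · have := hu.2 a (by omega); omega
            · omega
            · have := hu.2 (a - 1) (by omega); omega
            · omega
    · simp only [w]
      split_ifs with h4 h5 h6
      · have := hu.2 a (by omega); omega
      · omega
      · have := hu.2 (a - 1) (by omega); omega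
      · omega
  have h1 := hinv w (fun l => l) hw (id_inc (by omega)) (e₁ t) (e₂ t) (e₁_inc hM) (e₂_inc hM)
  have h2 : G (fun l => w (e₁ t l)) = G u := by
    refine hdep _ _ fun a ha => ?_
    simp only [w, e₁]
    by_cases h : a ≤ t
    · rw [if_pos h, if_pos h]
    · rw [if_neg h, if_neg (by omega), if_neg (by omega), if_pos (by omega), Nat.add_sub_cancel]
  have h3 : G (fun l => w (e₂ t l)) = G (Function.update u t s) := by
    refine hdep _ _ fun a ha => ?_
    rcases lt_trichotomy a t with h | rfl | h
    · have he : e₂ t a = a := if_pos h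
      simp only [he, w]
      rw [if_pos h.le, Function.update_of_ne (by omega)]
    · have he : e₂ a a = a + 1 := if_neg (lt_irrefl _)
      simp only [he, w]
      rw [if_neg (by omega), if_pos trivial, Function.update_self]
    · have he : e₂ t a = a + 1 := if_neg (by omega)
      simp only [he, w]
      rw [if_neg (by omega), if_neg (by omega), if_pos (by omega),
        Nat.add_sub_cancel, Function.update_of_ne (by omega)]
  rw [h2, h3] at h1
  exact h1

section main

variable {k M N m : ℕ} {G : (ℕ → ℕ) → ℕ}

theorem mix_inc {i j : ℕ → ℕ} (hi : Inc k m i) (hj : Inc k m j) (hij : ∀ t, t ≤ k → i t ≤ j t)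
    (q : ℕ) : Inc k m (fun l => if l < q then i l else j l) := by
  refine ⟨fun a b hab hb => ?_, fun a ha => ?_⟩
  · have h1 := hi.1 a b hab hb
    have h2 := hj.1 a b hab hb
    have h3 := hij b hb
    simp only []
    split_ifs <;> omega
  · have h1 := hi.2 a ha
    have h2 := hj.2 a ha
    simp only []
    split_ifs <;> omega

/-- Moving up the coordinates outside `J`. -/
theorem up (hdep : Dep k G) (hinv : InvI k M N G) (hM : k + 1 ≤ M) (hN : m + M ≤ N)
    {i j : ℕ → ℕ} (hi : Inc k m i) (hj : Inc k m j) (hij : ∀ t, t ≤ k → i t ≤ j t)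
    (hJ : ∀ t, t ≤ k → G (e₁ t) ≠ G (e₂ t) → i t = j t) : G i = G j := by
  have key : ∀ r, r ≤ k + 1 → G (fun l => if l < k + 1 - r then i l else j l) = G i := by
    intro r hr
    induction r with
    | zero =>
      refine hdep _ _ fun a ha => ?_
      rw [if_pos (by omega)]
    | succ r ih =>
      rw [← ih (by omega)]
      obtain ⟨q, hq⟩ : ∃ q, q = k + 1 - (r + 1) := ⟨_, rfl⟩
      have hq' : k + 1 - r = q + 1 := by omega
      rw [← hq, hq']
      have hqk : q ≤ k := by omega
      have e1 : (fun l => if l < q then i l else j l)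
          = Function.update (fun l => if l < q + 1 then i l else j l) q (j q) := by
        funext a
        rcases lt_trichotomy a q with h | rfl | h
        · rw [Function.update_of_ne (by omega), if_pos h, if_pos (by omega)]
        · rw [Function.update_self, if_neg (lt_irrefl _)]
        · rw [Function.update_of_ne (by omega), if_neg (by omega), if_neg (by omega)]
      by_cases hqe : i q = j q
      · refine hdep _ _ fun a ha => ?_
        rcases lt_trichotomy a q with h | rfl | h
        · rw [if_pos h, if_pos (by omega)]
        · rw [if_neg (lt_irrefl _), if_pos (by omega), hqe]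
        · rw [if_neg (by omega), if_neg (by omega)]
      · have hlt : i q < j q := lt_of_le_of_ne (hij q hqk) hqe
        have hGe : G (e₁ q) = G (e₂ q) := by
          by_contra hne
          exact hqe (hJ q hqk hne)
        have h5 := (move hdep hinv hM hN hqk (u := fun l => if l < q + 1 then i l else j l)
          (s := j q) (mix_inc hi hj hij (q + 1)) (by rw [← e1]; exact mix_inc hi hj hij q)
          (by rw [if_pos (by omega)]; exact hlt)).2 hGe
        rw [e1]
        exact h5.symm
  have h1 := key (k + 1) le_rfl
  rw [← h1]
  refine hdep _ _ fun a ha => ?_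
  rw [if_neg (by omega)]

/-- A coordinate where `j` skips is not essential. -/
theorem stretch (hdep : Dep k G) (hinv : InvI k M N G) (hM : k + 1 ≤ M) (hmM : m ≤ M)
    (hN : 2 * m + 1 + M ≤ N) (hN' : 2 * M + 1 ≤ N) {i j : ℕ → ℕ} (hi : Inc k m i) (hj : Inc k m j)
    {r : ℕ} (hr : r ≤ k) (hij : ∀ s, s < r → i s = j s) (hlt : i r < j r) (he : G i = G j) :
    G (e₁ r) = G (e₂ r) := by
  have hi' : Inc k M i := hi.mono hmM
  have hj' : Inc k M j := hj.mono hmM
  let w : ℕ → ℕ := fun l => 2 * l
  let w' : ℕ → ℕ := fun l => if l = i r then 2 * l + 1 else 2 * l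
  have hw : Inc M N w := ⟨fun a b hab hb => by simp only [w]; omega,
    fun a ha => by simp only [w]; omega⟩
  have hw' : Inc M N w' := ⟨fun a b hab hb => by simp only [w']; split_ifs <;> omega,
    fun a ha => by simp only [w']; split_ifs <;> omega⟩
  have h1 : G (fun l => w (i l)) = G (fun l => w (j l)) :=
    (hinv w (fun l => l) hw (id_inc (by omega)) i j hi' hj').2 he
  have h2 : G (fun l => w' (i l)) = G (fun l => w' (j l)) :=
    (hinv w' (fun l => l) hw' (id_inc (by omega)) i j hi' hj').2 he
  have h3 : G (fun l => w' (j l)) = G (fun l => w (j l)) := by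
    refine hdep _ _ fun a ha => ?_
    simp only [w, w']
    rw [if_neg]
    intro h
    rcases lt_or_ge a r with h4 | h4
    · have := hi.1 a r h4 hr
      rw [hij a h4] at this
      omega
    · rcases h4.eq_or_lt with rfl | h5
      · omega
      · have := hj.1 r a h5 ha
        omega
  have h4 : G (fun l => w' (i l)) = G (Function.update (fun l => w (i l)) r (2 * i r + 1)) := by
    refine hdep _ _ fun a ha => ?_
    rcases eq_or_ne a r with rfl | h
    · rw [Function.update_self]
      simp only [w', if_pos]
    · rw [Function.update_of_ne h]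
      simp only [w, w']
      rw [if_neg]
      intro h5
      rcases lt_or_gt_of_ne h with h6 | h6
      · have := hi.1 a r h6 hr; omega
      · have := hi.1 r a h6 ha; omega
  refine (move hdep hinv hM hN hr (u := fun l => w (i l)) (s := 2 * i r + 1) ?_ ?_ ?_).1 ?_
  · exact ⟨fun a b hab hb => by have := hi.1 a b hab hb; simp only [w]; omega,
      fun a ha => by have := hi.2 a ha; simp only [w]; omega⟩
  · refine ⟨fun a b hab hb => ?_, fun a ha => ?_⟩
    · have := hi.1 a b hab hb
      simp only [Function.update_apply, w]
      split_ifs with h5 h6 h7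
      · omega
      · rw [h5] at this; omega
      · rw [h7] at this; omega
      · omega
    · have := hi.2 a ha
      have h6 := hi.2 r hr
      simp only [Function.update_apply, w]
      split_ifs <;> omega
  · simp only [w]; omega
  · rw [← h4, h2, h3, h1]

/-- Equal values force equal essential coordinates. -/
theorem down (hdep : Dep k G) (hinv : InvI k M N G) (hM : k + 1 ≤ M) (hmM : m ≤ M)
    (hN : 2 * m + 1 + M ≤ N) (hN' : 2 * M + 1 ≤ N) :
    ∀ q : ℕ, q ≤ k + 1 → ∀ i j : ℕ → ℕ, Inc k m i → Inc k m j →
      (∀ s, s < k + 1 - q → i s = j s) → G i = G j →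
      ∀ t, t ≤ k → G (e₁ t) ≠ G (e₂ t) → i t = j t := by
  intro q
  induction q with
  | zero =>
    intro _ i j _ _ hij _ t ht _
    exact hij t (by omega)
  | succ q ih =>
    intro hq
    obtain ⟨r, hr⟩ : ∃ r, r = k + 1 - (q + 1) := ⟨_, rfl⟩
    have hr' : k + 1 - q = r + 1 := by omega
    rw [hr'] at ih
    rw [← hr]
    have hrk : r ≤ k := by omega
    -- the asymmetric step
    have key : ∀ i j : ℕ → ℕ, Inc k m i → Inc k m j → (∀ s, s < r → i s = j s) → G i = G j →
        i r < j r → ∀ t, t ≤ k → G (e₁ t) ≠ G (e₂ t) → i t = j t := by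
      intro i j hi hj hij he hlt t ht hne
      have hr0 := stretch hdep hinv hM hmM hN hN' hi hj hrk hij hlt he
      have hj' : Inc k m (Function.update j r (i r)) := by
        refine ⟨fun a b hab hb => ?_, fun a ha => ?_⟩
        · simp only [Function.update_apply]
          split_ifs with h5 h6 h7
          · omega
          · rw [h5] at hab; exact hlt.trans (hj.1 r b hab hb)
          · rw [h7] at hab; rw [← hij a hab]; exact hi.1 a r hab hrk
          · exact hj.1 a b hab hb
        · simp only [Function.update_apply]
          split_ifs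
          · exact hi.2 r hrk
          · exact hj.2 a ha
      have h1 : Function.update (Function.update j r (i r)) r (j r) = j := by
        rw [Function.update_idem, Function.update_eq_self]
      have h2 : G (Function.update j r (i r)) = G j := by
        have := (move hdep hinv hM (by omega) hrk (u := Function.update j r (i r)) (s := j r)
          (m := m) hj' (by rw [h1]; exact hj) (by rw [Function.update_self]; exact hlt)).2 hr0
        rwa [h1] at this
      have h3 := ih (by omega) i (Function.update j r (i r)) hi hj' (fun s hs => by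
        rcases (show s < r ∨ s = r by omega) with h4 | rfl
        · rw [Function.update_of_ne (by omega)]; exact hij s h4
        · rw [Function.update_self]) (by rw [h2]; exact he) t ht hne
      rcases eq_or_ne t r with rfl | h4
      · exact absurd hr0 hne
      · rwa [Function.update_of_ne h4] at h3
    intro i j hi hj hij he t ht hne
    rcases lt_trichotomy (i r) (j r) with h | h | h
    · exact key i j hi hj hij he h t ht hne
    · exact ih (by omega) i j hi hj (fun s hs => by
        rcases (show s < r ∨ s = r by omega) with h4 | rfl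
        · exact hij s h4
        · exact h) he t ht hne
    · exact (key j i hj hi (fun s hs => (hij s hs).symm) he.symm h t ht hne).symm

/-- **The Erdős-Rado canonical form.** -/
theorem erdos_rado (hdep : Dep k G) (hinv : InvI k M N G) (hM : k + 1 ≤ M) (hmM : m ≤ M)
    (hN : 2 * m + 1 + M ≤ N) (hN' : 2 * M + 1 ≤ N) :
    ∃ J : Finset ℕ, J ⊆ range (k + 1) ∧ ∀ i j : ℕ → ℕ, Inc k m i → Inc k m j →
      (G i = G j ↔ ∀ t ∈ J, i t = j t) := by
  classical
  refine ⟨(range (k + 1)).filter fun t => G (e₁ t) ≠ G (e₂ t), filter_subset _ _,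
    fun i j hi hj => ⟨fun he t ht => ?_, fun h => ?_⟩⟩
  · rw [mem_filter, mem_range] at ht
    exact down hdep hinv hM hmM hN hN' (k + 1) le_rfl i j hi hj (fun s hs => by omega) he t
      (by omega) ht.2
  · have hJ : ∀ t, t ≤ k → G (e₁ t) ≠ G (e₂ t) → i t = j t := fun t ht hne =>
      h t (mem_filter.2 ⟨mem_range.2 (by omega), hne⟩)
    have hmax : Inc k m (fun l => max (i l) (j l)) := by
      refine ⟨fun a b hab hb => ?_, fun a ha => ?_⟩
      · have h1 := hi.1 a b hab hb
        have h2 := hj.1 a b hab hb
        simp only []
        omega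
      · exact max_le (hi.2 a ha) (hj.2 a ha)
    have h1 : G i = G (fun l => max (i l) (j l)) :=
      up hdep hinv hM (by omega) hi hmax (fun t _ => le_max_left _ _) fun t ht hne => by
        rw [hJ t ht hne, max_self]
    have h2 : G j = G (fun l => max (i l) (j l)) :=
      up hdep hinv hM (by omega) hj hmax (fun t _ => le_max_right _ _) fun t ht hne => by
        rw [hJ t ht hne, max_self]
    rw [h1, h2]

end main

end Pool.Agent.J6H25.Canon
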