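import Pool.Agent.J6H25.Canon.Rel
import Pool.Agent.J6H25.Canon.ER

set_option autoImplicit false

/-!
# The Erdős-Rado canonical theorem for the differences in a block of consecutive primes
-/

namespace Pool.Agent.J6H25.Canon

open Finset Filter
open Pool.Agent.H256R2.SC (ff)
open Pool.Agent.Y898.PolyGaps (Cl)

/-- A telescoping sum over an interval of `Fin N`. -/
theorem sum_fin_Ico {N A B : ℕ} (hB : B ≤ N) (hAB : A ≤ B) (P : ℕ → ℤ) :
    ∑ i ∈ (univ.filter fun i : Fin N => A ≤ (i : ℕ) ∧ (i : ℕ) < B), (P ((i : ℕ) + 1) - P i)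
      = P B - P A := by
  have h1 : ∑ i ∈ (univ.filter fun i : Fin N => A ≤ (i : ℕ) ∧ (i : ℕ) < B),
      (P ((i : ℕ) + 1) - P i) = ∑ i ∈ Ico A B, (P (i + 1) - P i) := by
    refine sum_bij (fun i _ => (i : ℕ)) ?_ ?_ ?_ ?_
    · intro i hi
      simpa using hi
    · intro i _ j _ h
      exact Fin.ext h
    · intro i hi
      have := mem_Ico.1 hi
      exact ⟨⟨i, by omega⟩, by simpa using hi, rfl⟩
    · intro i _
      rfl
  rw [h1]
  exact sum_Ico_sub P hAB

/-- Interval blocks. -/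
theorem blocks_of_inc {M N : ℕ} {w : ℕ → ℕ} (hw : Inc M N w) :
    Blocks (fun l : Fin M => (univ.filter fun i : Fin N => w l ≤ (i : ℕ) ∧ (i : ℕ) < w (l + 1))) := by
  refine ⟨fun l => ?_, fun l l' hll i hi j hj => ?_⟩
  · have h1 := hw.1 l (l + 1) (by omega) (by omega)
    have h2 := hw.2 (l + 1) (by omega)
    exact ⟨⟨w l, by omega⟩, by simp [h1]⟩
  · simp only [mem_filter, mem_univ, true_and] at hi hj
    have h1 : (l : ℕ) < l' := hll
    have h2 : w (l + 1) ≤ w l' := by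
      rcases (show (l : ℕ) + 1 < l' ∨ (l : ℕ) + 1 = l' by omega) with h | h
      · exact (hw.1 _ _ h (by omega)).le
      · rw [h]
    rw [Fin.lt_def]
    omega

/-- **Canonical differences in blocks of primes next to a record gap.** -/
theorem gap_diffs (k m s : ℕ) : ∃ c C : ℝ, 0 < c ∧ 0 < C ∧ ∀ᶠ x : ℝ in atTop,
    ∀ H : ℝ, 1 ≤ H → H ≤ c * ff x → ∀ g : Fin s → (Fin k → ℤ) → ℕ,
    x ^ (7 / 8 : ℝ) ≤ (Set.ncard {n : ℕ | n ∈ Cl c C x H m (fun _ => True) ∧
      ∀ e : Fin s, ∃ J : Finset (Fin (k + 1)), ∀ i j : Fin (k + 1) → ℕ,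
        StrictMono i → StrictMono j → (∀ t, i t ≤ m) → (∀ t, j t ≤ m) →
        (g e (fun l => (Nat.nth Nat.Prime (n + i l.succ) : ℤ) -
            Nat.nth Nat.Prime (n + i l.castSucc))
          = g e (fun l => (Nat.nth Nat.Prime (n + j l.succ) : ℤ) -
              Nat.nth Nat.Prime (n + j l.castSucc)) ↔ ∀ t ∈ J, i t = j t)} : ℝ) := by
  classical
  set M := m + k + 1 with hM
  obtain ⟨c, C, hc, hC, h⟩ := mt_rel M (3 * M + 1) (Fin s × (Fin (k + 1) → Fin (M + 1)))
  refine ⟨c, C, hc, hC, ?_⟩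
  filter_upwards [h] with x hx H hH hHc gg
  refine (hx H hH hHc (fun y a => gg a.1 (fun l : Fin k =>
    ∑ r ∈ (univ.filter fun r : Fin M => (a.2 l.castSucc : ℕ) ≤ (r : ℕ) ∧
      (r : ℕ) < (a.2 l.succ : ℕ)), y r))).trans ?_
  rw [Nat.cast_le]
  refine Set.ncard_le_ncard ?_ ((Pool.Agent.Y898.PolyGaps.cl_finite c C x H m
    (fun _ => True)).subset fun n hn => hn.1)
  rintro n ⟨h1, h2, h3, h4, h5⟩
  refine ⟨⟨h1, ?_, h3, fun i hi => h4 i (by omega), trivial⟩, ?_⟩
  · refine le_trans ?_ h2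
    rw [Nat.cast_le]
    exact (Nat.nth_strictMono Nat.infinite_setOfPred_prime).monotone (by omega)
  intro s'
  set g := gg s' with hg
  -- the function of increasing sequences
  let P : ℕ → ℤ := fun t => (Nat.nth Nat.Prime (n + t) : ℤ)
  let G : (ℕ → ℕ) → ℕ := fun u => g (fun l : Fin k => P (u ((l : ℕ) + 1)) - P (u l))
  have hdep : Dep k G := by
    intro u v huv
    simp only [G]
    congr 1
    funext l
    rw [huv (l + 1) (by omega), huv l (by omega)]
  have hblk : ∀ w : ℕ → ℕ, Inc M (3 * M + 1) w → ∀ l : Fin M,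
      ∑ i ∈ (univ.filter fun i : Fin (3 * M + 1) => w l ≤ (i : ℕ) ∧ (i : ℕ) < w (l + 1)),
        ((Nat.nth Nat.Prime (n + i + 1) : ℤ) - Nat.nth Nat.Prime (n + i))
        = P (w (l + 1)) - P (w l) := by
    intro w hw l
    exact sum_fin_Ico (hw.2 (l + 1) (by omega)) (hw.1 l (l + 1) (by omega) (by omega)).le P
  have hval : ∀ w : ℕ → ℕ, Inc M (3 * M + 1) w → ∀ a : ℕ → ℕ, ∀ ha : Inc k M a,
      g (fun l : Fin k => ∑ r ∈ (univ.filter fun r : Fin M =>
        a l ≤ (r : ℕ) ∧ (r : ℕ) < a ((l : ℕ) + 1)),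
        ∑ i ∈ (univ.filter fun i : Fin (3 * M + 1) => w r ≤ (i : ℕ) ∧ (i : ℕ) < w (r + 1)),
        ((Nat.nth Nat.Prime (n + i + 1) : ℤ) - Nat.nth Nat.Prime (n + i)))
        = G (fun l => w (a l)) := by
    intro w hw a ha
    simp only [G]
    congr 1
    funext l
    rw [sum_congr rfl fun r _ => hblk w hw r]
    exact sum_fin_Ico (ha.2 (l + 1) (by omega)) (ha.1 l (l + 1) (by omega) (by omega)).le
      (fun t => P (w t))
  have hinv : InvI k M (3 * M + 1) G := by
    intro w w' hw hw' a b ha hb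
    have e := h5 _ _ (blocks_of_inc hw) (blocks_of_inc hw')
      (s', fun t => ⟨a t, by have := ha.2 t (by omega); omega⟩)
      (s', fun t => ⟨b t, by have := hb.2 t (by omega); omega⟩)
    simp only [Fin.val_castSucc, Fin.val_succ] at e
    rw [← hg] at e
    rw [hval w hw a ha, hval w hw b hb, hval w' hw' a ha, hval w' hw' b hb] at e
    exact e
  obtain ⟨J, hJs, hJ⟩ := erdos_rado (m := m) hdep hinv (by omega) (by omega) (by omega) (by omega)
  refine ⟨univ.filter fun t : Fin (k + 1) => (t : ℕ) ∈ J, fun i j hi hj him hjm => ?_⟩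
  have hconv : ∀ i : Fin (k + 1) → ℕ, StrictMono i → (∀ t, i t ≤ m) →
      Inc k m (fun a => if h : a < k + 1 then i ⟨a, h⟩ else 0) := by
    intro i hi him
    refine ⟨fun a b hab hb => ?_, fun a ha => ?_⟩
    · beta_reduce
      rw [dif_pos (by omega), dif_pos (by omega)]
      exact hi (Fin.lt_def.2 hab)
    · beta_reduce
      rw [dif_pos (by omega)]
      exact him _
  have hG : ∀ i : Fin (k + 1) → ℕ, G (fun a => if h : a < k + 1 then i ⟨a, h⟩ else 0)
      = g (fun l => P (i l.succ) - P (i l.castSucc)) := by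
    intro i
    simp only [G]
    congr 1
    funext l
    rw [dif_pos (by omega), dif_pos (by omega)]
    rfl
  have h6 := hJ _ _ (hconv i hi him) (hconv j hj hjm)
  rw [hG, hG] at h6
  refine h6.trans ⟨fun h t ht => ?_, fun h t ht => ?_⟩
  · have h7 := h t (by simpa using ht)
    rw [dif_pos t.2, dif_pos t.2] at h7
    exact h7
  · have ht' := mem_range.1 (hJs ht)
    rw [dif_pos ht', dif_pos ht']
    exact h ⟨t, ht'⟩ (by simpa using ht)

end Pool.Agent.J6H25.Canon
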