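import Mathlib

set_option autoImplicit false

/-!
# Taylor's canonical form of a block-invariant function on finite sets
-/

namespace Pool.Agent.J6H25.Canon

open Finset

/-- `β 0 < β 1 < … < β (M-1)` are nonempty subsets of `{0, …, N-1}`. -/
def BM (M N : ℕ) (β : ℕ → Finset ℕ) : Prop :=
  (∀ l < M, (β l).Nonempty ∧ ∀ i ∈ β l, i < N) ∧
    ∀ l l', l < l' → l' < M → ∀ i ∈ β l, ∀ j ∈ β l', i < j

/-- The equality pattern of `h` on the unions of blocks does not depend on the blocks. -/
def Inv (M N : ℕ) (h : Finset ℕ → ℕ) : Prop :=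
  ∀ β β' : ℕ → Finset ℕ, BM M N β → BM M N β' → ∀ I J : Finset ℕ, I ⊆ range M → J ⊆ range M →
    (h (I.biUnion β) = h (J.biUnion β) ↔ h (I.biUnion β') = h (J.biUnion β'))

/-- The five canonical forms on the nonempty subsets of `{0, …, m-1}`. -/
def Canonical (m : ℕ) (h : Finset ℕ → ℕ) : Prop :=
  (∀ F G : Finset ℕ, F.Nonempty → G.Nonempty → F ⊆ range m → G ⊆ range m → h F = h G) ∨
  (∀ F G : Finset ℕ, F.Nonempty → G.Nonempty → F ⊆ range m → G ⊆ range m →
    (h F = h G ↔ F.min = G.min)) ∨
  (∀ F G : Finset ℕ, F.Nonempty → G.Nonempty → F ⊆ range m → G ⊆ range m →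
    (h F = h G ↔ F.max = G.max)) ∨
  (∀ F G : Finset ℕ, F.Nonempty → G.Nonempty → F ⊆ range m → G ⊆ range m →
    (h F = h G ↔ F.min = G.min ∧ F.max = G.max)) ∨
  (∀ F G : Finset ℕ, F.Nonempty → G.Nonempty → F ⊆ range m → G ⊆ range m →
    (h F = h G ↔ F = G))

/-- The block map with given first blocks. -/
def blk (N0 : ℕ) (L : List (Finset ℕ)) (l : ℕ) : Finset ℕ := L.getD l {N0 + l}

theorem blk_bm {M N0 : ℕ} {L : List (Finset ℕ)} (hne : ∀ A ∈ L, A.Nonempty ∧ ∀ i ∈ A, i < N0)
    (hp : L.Pairwise (fun A B => ∀ i ∈ A, ∀ j ∈ B, i < j)) : BM M (N0 + M) (blk N0 L) := by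
  refine ⟨fun l hl => ?_, fun l l' hll hl' i hi j hj => ?_⟩
  · unfold blk
    by_cases h : l < L.length
    · rw [List.getD_eq_getElem _ _ h]
      have h1 := hne _ (List.getElem_mem h)
      exact ⟨h1.1, fun i hi => by have := h1.2 i hi; omega⟩
    · rw [List.getD_eq_default _ _ (not_lt.1 h)]
      refine ⟨singleton_nonempty _, fun i hi => ?_⟩
      rw [mem_singleton] at hi; omega
  · unfold blk at hi hj
    by_cases h' : l' < L.length
    · have h : l < L.length := hll.trans h'
      rw [List.getD_eq_getElem _ _ h] at hi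
      rw [List.getD_eq_getElem _ _ h'] at hj
      exact List.pairwise_iff_getElem.1 hp l l' h h' hll i hi j hj
    · rw [List.getD_eq_default _ _ (not_lt.1 h'), mem_singleton] at hj
      by_cases h : l < L.length
      · rw [List.getD_eq_getElem _ _ h] at hi
        have h1 := (hne _ (List.getElem_mem h)).2 i hi
        omega
      · rw [List.getD_eq_default _ _ (not_lt.1 h), mem_singleton] at hi
        omega

section pat

variable {M N0 : ℕ} {h : Finset ℕ → ℕ}

/-- Equality patterns of short sequences of blocks. -/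
theorem pat (hinv : Inv M (N0 + M) h) {L L' : List (Finset ℕ)}
    (hne : ∀ A ∈ L, A.Nonempty ∧ ∀ i ∈ A, i < N0)
    (hp : L.Pairwise (fun A B => ∀ i ∈ A, ∀ j ∈ B, i < j))
    (hne' : ∀ A ∈ L', A.Nonempty ∧ ∀ i ∈ A, i < N0)
    (hp' : L'.Pairwise (fun A B => ∀ i ∈ A, ∀ j ∈ B, i < j))
    {I J : Finset ℕ} (hI : I ⊆ range M) (hJ : J ⊆ range M) :
    h (I.biUnion (blk N0 L)) = h (J.biUnion (blk N0 L)) ↔
      h (I.biUnion (blk N0 L')) = h (J.biUnion (blk N0 L')) :=
  hinv _ _ (blk_bm hne hp) (blk_bm hne' hp') I J hI hJ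

end pat

/-- a good block -/
def Ok (N0 : ℕ) (A : Finset ℕ) : Prop := A.Nonempty ∧ ∀ i ∈ A, i < N0

/-- ascending blocks -/
def Lt (A B : Finset ℕ) : Prop := ∀ i ∈ A, ∀ j ∈ B, i < j

theorem Ok.sing {N0 i : ℕ} (h : i < N0) : Ok N0 {i} :=
  ⟨singleton_nonempty _, fun j hj => by rw [mem_singleton] at hj; omega⟩

theorem Ok.pair {N0 i j : ℕ} (h : i < N0) (h' : j < N0) : Ok N0 {i, j} :=
  ⟨⟨i, by simp⟩, fun l hl => by
    rw [mem_insert, mem_singleton] at hl; omega⟩

theorem pat2 {M N0 : ℕ} {h : Finset ℕ → ℕ} (hinv : Inv M (N0 + M) h) (hM : 2 ≤ M)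
    {A B A' B' : Finset ℕ} (hA : Ok N0 A) (hB : Ok N0 B) (hA' : Ok N0 A') (hB' : Ok N0 B')
    (hAB : Lt A B) (hAB' : Lt A' B') {I J : Finset ℕ} (hI : I ⊆ range 2) (hJ : J ⊆ range 2) :
    h (I.biUnion (blk N0 [A, B])) = h (J.biUnion (blk N0 [A, B])) ↔
      h (I.biUnion (blk N0 [A', B'])) = h (J.biUnion (blk N0 [A', B'])) := by
  refine pat hinv ?_ ?_ ?_ ?_ (hI.trans (range_subset_range.2 hM)) (hJ.trans (range_subset_range.2 hM))
  · intro X hX
    simp only [List.mem_cons, List.not_mem_nil, or_false] at hX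
    rcases hX with rfl | rfl
    · exact hA
    · exact hB
  · simp only [List.pairwise_cons, List.mem_cons, List.not_mem_nil, or_false, forall_eq,
      false_implies, implies_true, List.Pairwise.nil, and_true]
    exact hAB
  · intro X hX
    simp only [List.mem_cons, List.not_mem_nil, or_false] at hX
    rcases hX with rfl | rfl
    · exact hA'
    · exact hB'
  · simp only [List.pairwise_cons, List.mem_cons, List.not_mem_nil, or_false, forall_eq,
      false_implies, implies_true, List.Pairwise.nil, and_true]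
    exact hAB'

theorem pat3 {M N0 : ℕ} {h : Finset ℕ → ℕ} (hinv : Inv M (N0 + M) h) (hM : 3 ≤ M)
    {A B C A' B' C' : Finset ℕ} (hA : Ok N0 A) (hB : Ok N0 B) (hC : Ok N0 C)
    (hA' : Ok N0 A') (hB' : Ok N0 B') (hC' : Ok N0 C')
    (hAB : Lt A B) (hBC : Lt B C) (hAB' : Lt A' B') (hBC' : Lt B' C')
    {I J : Finset ℕ} (hI : I ⊆ range 3) (hJ : J ⊆ range 3) :
    h (I.biUnion (blk N0 [A, B, C])) = h (J.biUnion (blk N0 [A, B, C])) ↔
      h (I.biUnion (blk N0 [A', B', C'])) = h (J.biUnion (blk N0 [A', B', C'])) := by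
  have hAC : Lt A C := fun i hi j hj => by
    obtain ⟨b, hb⟩ := hB.1
    exact (hAB i hi b hb).trans (hBC b hb j hj)
  have hAC' : Lt A' C' := fun i hi j hj => by
    obtain ⟨b, hb⟩ := hB'.1
    exact (hAB' i hi b hb).trans (hBC' b hb j hj)
  refine pat hinv ?_ ?_ ?_ ?_ (hI.trans (range_subset_range.2 hM)) (hJ.trans (range_subset_range.2 hM))
  · intro X hX
    simp only [List.mem_cons, List.not_mem_nil, or_false] at hX
    rcases hX with rfl | rfl | rfl
    · exact hA
    · exact hB
    · exact hC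
  · simp only [List.pairwise_cons, List.mem_cons, List.not_mem_nil, or_false, forall_eq,
      forall_eq_or_imp, false_implies, implies_true, List.Pairwise.nil, and_true]
    exact ⟨⟨hAB, hAC⟩, hBC⟩
  · intro X hX
    simp only [List.mem_cons, List.not_mem_nil, or_false] at hX
    rcases hX with rfl | rfl | rfl
    · exact hA'
    · exact hB'
    · exact hC'
  · simp only [List.pairwise_cons, List.mem_cons, List.not_mem_nil, or_false, forall_eq,
      forall_eq_or_imp, false_implies, implies_true, List.Pairwise.nil, and_true]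
    exact ⟨⟨hAB', hAC'⟩, hBC'⟩

theorem pat4 {M N0 : ℕ} {h : Finset ℕ → ℕ} (hinv : Inv M (N0 + M) h) (hM : 4 ≤ M)
    {A B C D A' B' C' D' : Finset ℕ} (hA : Ok N0 A) (hB : Ok N0 B) (hC : Ok N0 C) (hD : Ok N0 D)
    (hA' : Ok N0 A') (hB' : Ok N0 B') (hC' : Ok N0 C') (hD' : Ok N0 D')
    (hAB : Lt A B) (hBC : Lt B C) (hCD : Lt C D) (hAB' : Lt A' B') (hBC' : Lt B' C')
    (hCD' : Lt C' D') {I J : Finset ℕ} (hI : I ⊆ range 4) (hJ : J ⊆ range 4) :
    h (I.biUnion (blk N0 [A, B, C, D])) = h (J.biUnion (blk N0 [A, B, C, D])) ↔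
      h (I.biUnion (blk N0 [A', B', C', D'])) = h (J.biUnion (blk N0 [A', B', C', D'])) := by
  have tr : ∀ {X Y Z : Finset ℕ}, Y.Nonempty → Lt X Y → Lt Y Z → Lt X Z := by
    intro X Y Z hY h1 h2 i hi j hj
    obtain ⟨b, hb⟩ := hY
    exact (h1 i hi b hb).trans (h2 b hb j hj)
  refine pat hinv ?_ ?_ ?_ ?_ (hI.trans (range_subset_range.2 hM)) (hJ.trans (range_subset_range.2 hM))
  · intro X hX
    simp only [List.mem_cons, List.not_mem_nil, or_false] at hX
    rcases hX with rfl | rfl | rfl | rfl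
    · exact hA
    · exact hB
    · exact hC
    · exact hD
  · simp only [List.pairwise_cons, List.mem_cons, List.not_mem_nil, or_false, forall_eq,
      forall_eq_or_imp, false_implies, implies_true, List.Pairwise.nil, and_true]
    exact ⟨⟨hAB, tr hB.1 hAB hBC, tr hC.1 (tr hB.1 hAB hBC) hCD⟩, ⟨hBC, tr hC.1 hBC hCD⟩, hCD⟩
  · intro X hX
    simp only [List.mem_cons, List.not_mem_nil, or_false] at hX
    rcases hX with rfl | rfl | rfl | rfl
    · exact hA'
    · exact hB'
    · exact hC'
    · exact hD'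
  · simp only [List.pairwise_cons, List.mem_cons, List.not_mem_nil, or_false, forall_eq,
      forall_eq_or_imp, false_implies, implies_true, List.Pairwise.nil, and_true]
    exact ⟨⟨hAB', tr hB'.1 hAB' hBC', tr hC'.1 (tr hB'.1 hAB' hBC') hCD'⟩,
      ⟨hBC', tr hC'.1 hBC' hCD'⟩, hCD'⟩

/-- All or none: patterns of two blocks. -/
theorem dich2 {M N0 : ℕ} {h : Finset ℕ → ℕ} (hinv : Inv M (N0 + M) h) (hM : 2 ≤ M)
    (I J : Finset ℕ) (hI : I ⊆ range 2) (hJ : J ⊆ range 2) :
    (∀ A B, Ok N0 A → Ok N0 B → Lt A B →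
      h (I.biUnion (blk N0 [A, B])) = h (J.biUnion (blk N0 [A, B]))) ∨
    (∀ A B, Ok N0 A → Ok N0 B → Lt A B →
      h (I.biUnion (blk N0 [A, B])) ≠ h (J.biUnion (blk N0 [A, B]))) := by
  by_cases H : ∃ A B, Ok N0 A ∧ Ok N0 B ∧ Lt A B ∧
      h (I.biUnion (blk N0 [A, B])) = h (J.biUnion (blk N0 [A, B]))
  · left
    obtain ⟨A, B, hA, hB, hAB, he⟩ := H
    intro A' B' hA' hB' hAB'
    exact (pat2 hinv hM hA hB hA' hB' hAB hAB' hI hJ).1 he
  · right
    intro A B hA hB hAB he
    exact H ⟨A, B, hA, hB, hAB, he⟩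

/-- All or none: patterns of three blocks. -/
theorem dich3 {M N0 : ℕ} {h : Finset ℕ → ℕ} (hinv : Inv M (N0 + M) h) (hM : 3 ≤ M)
    (I J : Finset ℕ) (hI : I ⊆ range 3) (hJ : J ⊆ range 3) :
    (∀ A B C, Ok N0 A → Ok N0 B → Ok N0 C → Lt A B → Lt B C →
      h (I.biUnion (blk N0 [A, B, C])) = h (J.biUnion (blk N0 [A, B, C]))) ∨
    (∀ A B C, Ok N0 A → Ok N0 B → Ok N0 C → Lt A B → Lt B C →
      h (I.biUnion (blk N0 [A, B, C])) ≠ h (J.biUnion (blk N0 [A, B, C]))) := by
  by_cases H : ∃ A B C, Ok N0 A ∧ Ok N0 B ∧ Ok N0 C ∧ Lt A B ∧ Lt B C ∧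
      h (I.biUnion (blk N0 [A, B, C])) = h (J.biUnion (blk N0 [A, B, C]))
  · left
    obtain ⟨A, B, C, hA, hB, hC, hAB, hBC, he⟩ := H
    intro A' B' C' hA' hB' hC' hAB' hBC'
    exact (pat3 hinv hM hA hB hC hA' hB' hC' hAB hBC hAB' hBC' hI hJ).1 he
  · right
    intro A B C hA hB hC hAB hBC he
    exact H ⟨A, B, C, hA, hB, hC, hAB, hBC, he⟩

/-- All or none: patterns of four blocks. -/
theorem dich4 {M N0 : ℕ} {h : Finset ℕ → ℕ} (hinv : Inv M (N0 + M) h) (hM : 4 ≤ M)
    (I J : Finset ℕ) (hI : I ⊆ range 4) (hJ : J ⊆ range 4) :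
    (∀ A B C D, Ok N0 A → Ok N0 B → Ok N0 C → Ok N0 D → Lt A B → Lt B C → Lt C D →
      h (I.biUnion (blk N0 [A, B, C, D])) = h (J.biUnion (blk N0 [A, B, C, D]))) ∨
    (∀ A B C D, Ok N0 A → Ok N0 B → Ok N0 C → Ok N0 D → Lt A B → Lt B C → Lt C D →
      h (I.biUnion (blk N0 [A, B, C, D])) ≠ h (J.biUnion (blk N0 [A, B, C, D]))) := by
  by_cases H : ∃ A B C D, Ok N0 A ∧ Ok N0 B ∧ Ok N0 C ∧ Ok N0 D ∧ Lt A B ∧ Lt B C ∧ Lt C D ∧
      h (I.biUnion (blk N0 [A, B, C, D])) = h (J.biUnion (blk N0 [A, B, C, D]))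
  · left
    obtain ⟨A, B, C, D, hA, hB, hC, hD, hAB, hBC, hCD, he⟩ := H
    intro A' B' C' D' hA' hB' hC' hD' hAB' hBC' hCD'
    exact (pat4 hinv hM hA hB hC hD hA' hB' hC' hD' hAB hBC hCD hAB' hBC' hCD' hI hJ).1 he
  · right
    intro A B C D hA hB hC hD hAB hBC hCD he
    exact H ⟨A, B, C, D, hA, hB, hC, hD, hAB, hBC, hCD, he⟩

theorem Lt.sing {i j : ℕ} (h : i < j) : Lt {i} {j} := fun a ha b hb => by
  rw [mem_singleton] at ha hb; omega

theorem min_iff {F G : Finset ℕ} (hF : F.Nonempty) (hG : G.Nonempty) :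
    F.min = G.min ↔ F.min' hF = G.min' hG := by
  rw [← coe_min' hF, ← coe_min' hG]
  exact WithTop.coe_inj

theorem max_iff {F G : Finset ℕ} (hF : F.Nonempty) (hG : G.Nonempty) :
    F.max = G.max ↔ F.max' hF = G.max' hG := by
  rw [← coe_max' hF, ← coe_max' hG]
  exact WithBot.coe_inj

section cases

variable {m M N0 : ℕ} {h : Finset ℕ → ℕ}

/-- Case 1: two blocks. -/
theorem case1 (hN : m + 6 ≤ N0) (hc : ∀ A B, Ok N0 A → Ok N0 B → Lt A B → h A = h B)
    (F G : Finset ℕ) (hF : F.Nonempty) (hG : G.Nonempty) (hFm : F ⊆ range m) (hGm : G ⊆ range m) :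
    h F = h G := by
  have key : ∀ X : Finset ℕ, X.Nonempty → X ⊆ range m → h X = h {m} := fun X hX hXm => by
    refine hc X {m} ⟨hX, fun i hi => ?_⟩ (Ok.sing (by omega)) fun i hi j hj => ?_
    · have := mem_range.1 (hXm hi); omega
    · have := mem_range.1 (hXm hi)
      rw [mem_singleton] at hj; omega
  rw [key F hF hFm, key G hG hGm]

theorem okm (hN : m + 6 ≤ N0) {X : Finset ℕ} (hX : X.Nonempty) (hXm : X ⊆ range m) : Ok N0 X :=
  ⟨hX, fun i hi => by have := mem_range.1 (hXm hi); omega⟩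

/-- Case 2: the form depends only on the minimum. -/
theorem case2 (hN : m + 6 ≤ N0) (hc : ∀ A B, Ok N0 A → Ok N0 B → Lt A B → h A ≠ h B)
    (ha : ∀ A B, Ok N0 A → Ok N0 B → Lt A B → h A = h (A ∪ B))
    (F G : Finset ℕ) (hF : F.Nonempty) (hG : G.Nonempty) (hFm : F ⊆ range m) (hGm : G ⊆ range m) :
    h F = h G ↔ F.min = G.min := by
  have key : ∀ X : Finset ℕ, ∀ hX : X.Nonempty, X ⊆ range m → h X = h {X.min' hX} := by
    intro X hX hXm
    by_cases hE : (X.erase (X.min' hX)).Nonempty
    · have h1 := ha {X.min' hX} (X.erase (X.min' hX)) (okm hN (singleton_nonempty _)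
        (singleton_subset_iff.2 (hXm (min'_mem X hX)))) (okm hN hE ((erase_subset _ _).trans hXm))
        (fun i hi j hj => by
          rw [mem_singleton] at hi; subst hi
          exact X.min'_lt_of_mem_erase_min' hX hj)
      rw [h1]
      congr 1
      ext i
      simp only [mem_union, mem_singleton, mem_erase, ne_eq]
      constructor
      · intro hi
        by_cases h2 : i = X.min' hX
        · exact Or.inl h2
        · exact Or.inr ⟨h2, hi⟩
      · rintro (rfl | ⟨-, h2⟩)
        · exact min'_mem X hX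
        · exact h2
    · rw [not_nonempty_iff_eq_empty, erase_eq_empty_iff] at hE
      rcases hE with hE | hE
      · exact absurd hE hX.ne_empty
      · exact congrArg h hE
  rw [key F hF hFm, key G hG hGm, min_iff hF hG]
  constructor
  · intro he
    have h1 := mem_range.1 (hFm (F.min'_mem hF))
    have h2 := mem_range.1 (hGm (G.min'_mem hG))
    rcases lt_trichotomy (F.min' hF) (G.min' hG) with h3 | h3 | h3
    · exact absurd he (hc _ _ (Ok.sing (by omega)) (Ok.sing (by omega)) (Lt.sing h3))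
    · exact h3
    · exact absurd he.symm (hc _ _ (Ok.sing (by omega)) (Ok.sing (by omega)) (Lt.sing h3))
  · intro he
    rw [he]

/-- Case 3: the form depends only on the maximum. -/
theorem case3 (hN : m + 6 ≤ N0) (hc : ∀ A B, Ok N0 A → Ok N0 B → Lt A B → h A ≠ h B)
    (hb : ∀ A B, Ok N0 A → Ok N0 B → Lt A B → h B = h (A ∪ B))
    (F G : Finset ℕ) (hF : F.Nonempty) (hG : G.Nonempty) (hFm : F ⊆ range m) (hGm : G ⊆ range m) :
    h F = h G ↔ F.max = G.max := by
  have key : ∀ X : Finset ℕ, ∀ hX : X.Nonempty, X ⊆ range m → h X = h {X.max' hX} := by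
    intro X hX hXm
    by_cases hE : (X.erase (X.max' hX)).Nonempty
    · have h1 := hb (X.erase (X.max' hX)) {X.max' hX} (okm hN hE ((erase_subset _ _).trans hXm))
        (okm hN (singleton_nonempty _) (singleton_subset_iff.2 (hXm (max'_mem X hX)))) 
        (fun i hi j hj => by
          rw [mem_singleton] at hj; subst hj
          exact X.lt_max'_of_mem_erase_max' hX hi)
      rw [h1]
      congr 1
      ext i
      simp only [mem_union, mem_singleton, mem_erase, ne_eq]
      constructor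
      · intro hi
        by_cases h2 : i = X.max' hX
        · exact Or.inr h2
        · exact Or.inl ⟨h2, hi⟩
      · rintro (⟨-, h2⟩ | rfl)
        · exact h2
        · exact max'_mem X hX
    · rw [not_nonempty_iff_eq_empty, erase_eq_empty_iff] at hE
      rcases hE with hE | hE
      · exact absurd hE hX.ne_empty
      · exact congrArg h hE
  rw [key F hF hFm, key G hG hGm, max_iff hF hG]
  constructor
  · intro he
    have h1 := mem_range.1 (hFm (F.max'_mem hF))
    have h2 := mem_range.1 (hGm (G.max'_mem hG))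
    rcases lt_trichotomy (F.max' hF) (G.max' hG) with h3 | h3 | h3
    · exact absurd he (hc _ _ (Ok.sing (by omega)) (Ok.sing (by omega)) (Lt.sing h3))
    · exact h3
    · exact absurd he.symm (hc _ _ (Ok.sing (by omega)) (Ok.sing (by omega)) (Lt.sing h3))
  · intro he
    rw [he]

/-- Case 5: the form is injective. -/
theorem case5 (hM : m + 4 ≤ M) (hN : m + 6 ≤ N0) (hinv : Inv M (N0 + M) h)
    (ha : ∀ A B, Ok N0 A → Ok N0 B → Lt A B → h A ≠ h (A ∪ B))
    (hh : ∀ A B C, Ok N0 A → Ok N0 B → Ok N0 C → Lt A B → Lt B C → h (A ∪ C) ≠ h (A ∪ B ∪ C))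
    (F G : Finset ℕ) (hF : F.Nonempty) (hG : G.Nonempty) (hFm : F ⊆ range m) (hGm : G ⊆ range m) :
    h F = h G ↔ F = G := by
  refine ⟨fun he => ?_, fun he => by rw [he]⟩
  -- the main step
  have key : ∀ F G : Finset ℕ, F ⊆ range m → G ⊆ range m → h F = h G → F ⊆ G := by
    clear he hF hG hFm hGm F G
    intro F G hFm hGm he x hx
    by_contra hxG
    have hxm := mem_range.1 (hFm hx)
    -- the block maps
    let β : ℕ → Finset ℕ := fun i => if i ≤ x then {i} else {i + 1}
    let β' : ℕ → Finset ℕ := fun i => if i < x then {i} else if i = x then {x, x + 1} else {i + 1}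
    have hβ : BM M (N0 + M) β := by
      refine ⟨fun l hl => ?_, fun l l' hll hl' i hi j hj => ?_⟩
      · simp only [β]
        split_ifs with h1
        · exact ⟨singleton_nonempty _, fun i hi => by rw [mem_singleton] at hi; omega⟩
        · exact ⟨singleton_nonempty _, fun i hi => by rw [mem_singleton] at hi; omega⟩
      · simp only [β] at hi hj
        split_ifs at hi hj with h1 h2 <;>
        · rw [mem_singleton] at hi hj
          omega
    have hβ' : BM M (N0 + M) β' := by
      refine ⟨fun l hl => ?_, fun l l' hll hl' i hi j hj => ?_⟩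
      · simp only [β']
        split_ifs with h1 h2
        · exact ⟨singleton_nonempty _, fun i hi => by rw [mem_singleton] at hi; omega⟩
        · exact ⟨⟨x, by simp⟩, fun i hi => by
            rw [mem_insert, mem_singleton] at hi; omega⟩
        · exact ⟨singleton_nonempty _, fun i hi => by rw [mem_singleton] at hi; omega⟩
      · simp only [β'] at hi hj
        split_ifs at hi hj <;>
        · simp only [mem_insert, mem_singleton] at hi hj
          omega
    have hid : BM M (N0 + M) (fun i => {i}) :=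
      ⟨fun l hl => ⟨singleton_nonempty _, fun i hi => by rw [mem_singleton] at hi; omega⟩,
        fun l l' hll hl' i hi j hj => by rw [mem_singleton] at hi hj; omega⟩
    have hsub : range m ⊆ range M := range_subset_range.2 (by omega)
    have e0 : ∀ X : Finset ℕ, X.biUnion (fun i => ({i} : Finset ℕ)) = X := fun X => by
      ext i; simp
    have e1 : h (F.biUnion β) = h (G.biUnion β) := by
      rw [hinv β _ hβ hid F G (hFm.trans hsub) (hGm.trans hsub), e0, e0]
      exact he
    have e2 : h (F.biUnion β') = h (G.biUnion β') := by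
      rw [hinv β' _ hβ' hid F G (hFm.trans hsub) (hGm.trans hsub), e0, e0]
      exact he
    have e3 : G.biUnion β = G.biUnion β' := by
      refine biUnion_congr rfl fun i hi => ?_
      simp only [β, β']
      have : i ≠ x := fun h => hxG (h ▸ hi)
      rcases lt_or_gt_of_ne this with h1 | h1
      · rw [if_pos h1.le, if_pos h1]
      · rw [if_neg (not_le.2 h1), if_neg (not_lt.2 h1.le), if_neg this]
    have e4 : h (F.biUnion β) = h (F.biUnion β') := by rw [e1, e2, e3]
    -- the three parts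
    set A := F.filter (· ≤ x) with hA
    set C := (F.filter (x < ·)).image (· + 1) with hC
    have hAok : Ok N0 A := ⟨⟨x, by simp [hA, hx]⟩, fun i hi => by
      have := (mem_filter.1 hi).2; omega⟩
    have hBok : Ok N0 {x + 1} := Ok.sing (by omega)
    have hAB : Lt A {x + 1} := fun i hi j hj => by
      have := (mem_filter.1 hi).2
      rw [mem_singleton] at hj; omega
    have eF : F.biUnion β = A ∪ C := by
      ext i
      simp only [mem_biUnion, mem_union, hA, hC, mem_filter, mem_image, β]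
      constructor
      · rintro ⟨a, haF, hi⟩
        split_ifs at hi with h1
        · rw [mem_singleton] at hi; subst hi; exact Or.inl ⟨haF, h1⟩
        · rw [mem_singleton] at hi; subst hi; exact Or.inr ⟨a, ⟨haF, not_le.1 h1⟩, rfl⟩
      · rintro (⟨h1, h2⟩ | ⟨a, ⟨h1, h2⟩, rfl⟩)
        · exact ⟨i, h1, by rw [if_pos h2]; exact mem_singleton_self _⟩
        · exact ⟨a, h1, by rw [if_neg (not_le.2 h2)]; exact mem_singleton_self _⟩
    have eF' : F.biUnion β' = A ∪ {x + 1} ∪ C := by
      ext i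
      simp only [mem_biUnion, mem_union, hA, hC, mem_filter, mem_image, β', mem_singleton]
      constructor
      · rintro ⟨a, haF, hi⟩
        split_ifs at hi with h1 h2
        · rw [mem_singleton] at hi; subst hi; exact Or.inl (Or.inl ⟨haF, h1.le⟩)
        · rw [mem_insert, mem_singleton] at hi
          rcases hi with rfl | rfl
          · exact Or.inl (Or.inl ⟨hx, le_rfl⟩)
          · exact Or.inl (Or.inr rfl)
        · rw [mem_singleton] at hi; subst hi; exact Or.inr ⟨a, ⟨haF, by omega⟩, rfl⟩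
      · rintro ((⟨h1, h2⟩ | rfl) | ⟨a, ⟨h1, h2⟩, rfl⟩)
        · rcases h2.lt_or_eq with h3 | rfl
          · exact ⟨i, h1, by rw [if_pos h3]; exact mem_singleton_self _⟩
          · exact ⟨i, h1, by simp⟩
        · exact ⟨x, hx, by simp⟩
        · exact ⟨a, h1, by rw [if_neg (not_lt.2 h2.le), if_neg (ne_of_gt h2)]
                           exact mem_singleton_self _⟩
    rw [eF, eF'] at e4
    by_cases hCe : C.Nonempty
    · refine hh A {x + 1} C hAok hBok ⟨hCe, fun i hi => ?_⟩ hAB (fun i hi j hj => ?_) e4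
      · rw [hC, mem_image] at hi
        obtain ⟨a, ha1, rfl⟩ := hi
        have := mem_range.1 (hFm (mem_filter.1 ha1).1)
        omega
      · rw [hC, mem_image] at hj
        obtain ⟨a, ha1, rfl⟩ := hj
        have := (mem_filter.1 ha1).2
        rw [mem_singleton] at hi; omega
    · rw [not_nonempty_iff_eq_empty] at hCe
      rw [hCe, union_empty, union_empty] at e4
      exact ha A {x + 1} hAok hBok hAB e4
  exact Subset.antisymm (key F G hFm hGm he) (key G F hGm hFm he.symm)

end cases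

theorem Lt.union_left {A B C : Finset ℕ} (h1 : Lt A C) (h2 : Lt B C) : Lt (A ∪ B) C :=
  fun i hi j hj => by
    rcases mem_union.1 hi with h | h
    · exact h1 i h j hj
    · exact h2 i h j hj

theorem Lt.union_right {A B C : Finset ℕ} (h1 : Lt A B) (h2 : Lt A C) : Lt A (B ∪ C) :=
  fun i hi j hj => by
    rcases mem_union.1 hj with h | h
    · exact h1 i hi j h
    · exact h2 i hi j h

theorem Ok.union {N0 : ℕ} {A B : Finset ℕ} (hA : Ok N0 A) (hB : Ok N0 B) : Ok N0 (A ∪ B) :=
  ⟨hA.1.mono subset_union_left, fun i hi => by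
    rcases mem_union.1 hi with h | h
    · exact hA.2 i h
    · exact hB.2 i h⟩

section excl

variable {M N0 : ℕ} {h : Finset ℕ → ℕ}

theorem x1 (hM : 4 ≤ M) (hN : 6 ≤ N0) (hinv : Inv M (N0 + M) h)
    (hc : ∀ A B, Ok N0 A → Ok N0 B → Lt A B → h A ≠ h B) :
    ∀ A B C, Ok N0 A → Ok N0 B → Ok N0 C → Lt A B → Lt B C → h B ≠ h (A ∪ C) := by
  rcases dich3 hinv (by omega) {1} {0, 2} (by decide) (by decide) with H | H
  · exfalso
    have e1 := H {0} {1} {3} (Ok.sing (by omega)) (Ok.sing (by omega)) (Ok.sing (by omega))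
      (Lt.sing (by omega)) (Lt.sing (by omega))
    have e2 := H {0} {2} {3} (Ok.sing (by omega)) (Ok.sing (by omega)) (Ok.sing (by omega))
      (Lt.sing (by omega)) (Lt.sing (by omega))
    simp only [blk, singleton_biUnion, biUnion_insert, List.getD_cons_zero,
      List.getD_cons_succ] at e1 e2
    exact hc {1} {2} (Ok.sing (by omega)) (Ok.sing (by omega)) (Lt.sing (by omega))
      (e1.trans e2.symm)
  · intro A B C hA hB hC hAB hBC he
    have := H A B C hA hB hC hAB hBC
    simp only [blk, singleton_biUnion, biUnion_insert, List.getD_cons_zero,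
      List.getD_cons_succ] at this
    exact this he

theorem x2 (hM : 4 ≤ M) (hN : 6 ≤ N0) (hinv : Inv M (N0 + M) h)
    (hc : ∀ A B, Ok N0 A → Ok N0 B → Lt A B → h A ≠ h B) :
    ∀ A B C, Ok N0 A → Ok N0 B → Ok N0 C → Lt A B → Lt B C → h (A ∪ B) ≠ h (B ∪ C) := by
  rcases dich3 hinv (by omega) {0, 1} {1, 2} (by decide) (by decide) with H | H
  · exfalso
    have e1 := H {0} {1} {2} (Ok.sing (by omega)) (Ok.sing (by omega)) (Ok.sing (by omega))
      (Lt.sing (by omega)) (Lt.sing (by omega))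
    have e2 := H {1} {2} {3} (Ok.sing (by omega)) (Ok.sing (by omega)) (Ok.sing (by omega))
      (Lt.sing (by omega)) (Lt.sing (by omega))
    simp only [blk, singleton_biUnion, biUnion_insert, List.getD_cons_zero,
      List.getD_cons_succ] at e1 e2
    exact hc ({0} ∪ {1}) ({2} ∪ {3}) ((Ok.sing (by omega)).union (Ok.sing (by omega)))
      ((Ok.sing (by omega)).union (Ok.sing (by omega)))
      (((Lt.sing (by omega)).union_right (Lt.sing (by omega))).union_left
        ((Lt.sing (by omega)).union_right (Lt.sing (by omega))))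
      (e1.trans e2)
  · intro A B C hA hB hC hAB hBC he
    have := H A B C hA hB hC hAB hBC
    simp only [blk, singleton_biUnion, biUnion_insert, List.getD_cons_zero,
      List.getD_cons_succ] at this
    exact this he

theorem x3 (hM : 4 ≤ M) (hN : 6 ≤ N0) (hinv : Inv M (N0 + M) h)
    (hc : ∀ A B, Ok N0 A → Ok N0 B → Lt A B → h A ≠ h B) :
    ∀ A B C D, Ok N0 A → Ok N0 B → Ok N0 C → Ok N0 D → Lt A B → Lt B C → Lt C D →
      h (A ∪ C) ≠ h (B ∪ D) := by
  rcases dich4 hinv (by omega) {0, 2} {1, 3} (by decide) (by decide) with H | H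
  · exfalso
    have e1 := H {0} {1} {2} {3} (Ok.sing (by omega)) (Ok.sing (by omega)) (Ok.sing (by omega))
      (Ok.sing (by omega)) (Lt.sing (by omega)) (Lt.sing (by omega)) (Lt.sing (by omega))
    have e2 := H {1} {2} {3} {4} (Ok.sing (by omega)) (Ok.sing (by omega)) (Ok.sing (by omega))
      (Ok.sing (by omega)) (Lt.sing (by omega)) (Lt.sing (by omega)) (Lt.sing (by omega))
    have e3 := H {2} {3} {4} {5} (Ok.sing (by omega)) (Ok.sing (by omega)) (Ok.sing (by omega))
      (Ok.sing (by omega)) (Lt.sing (by omega)) (Lt.sing (by omega)) (Lt.sing (by omega))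
    simp only [blk, singleton_biUnion, biUnion_insert, List.getD_cons_zero,
      List.getD_cons_succ] at e1 e2 e3
    exact hc ({0} ∪ {2}) ({3} ∪ {5}) ((Ok.sing (by omega)).union (Ok.sing (by omega)))
      ((Ok.sing (by omega)).union (Ok.sing (by omega)))
      (((Lt.sing (by omega)).union_right (Lt.sing (by omega))).union_left
        ((Lt.sing (by omega)).union_right (Lt.sing (by omega))))
      (e1.trans (e2.trans e3))
  · intro A B C D hA hB hC hD hAB hBC hCD he
    have := H A B C D hA hB hC hD hAB hBC hCD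
    simp only [blk, singleton_biUnion, biUnion_insert, List.getD_cons_zero,
      List.getD_cons_succ] at this
    exact this he

theorem x4 (hM : 4 ≤ M) (hN : 6 ≤ N0) (hinv : Inv M (N0 + M) h)
    (hc : ∀ A B, Ok N0 A → Ok N0 B → Lt A B → h A ≠ h B) :
    ∀ A B C D, Ok N0 A → Ok N0 B → Ok N0 C → Ok N0 D → Lt A B → Lt B C → Lt C D →
      h (A ∪ D) ≠ h (B ∪ C) := by
  rcases dich4 hinv (by omega) {0, 3} {1, 2} (by decide) (by decide) with H | H
  · exfalso
    have e1 := H {0} {1} {2} {5} (Ok.sing (by omega)) (Ok.sing (by omega)) (Ok.sing (by omega))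
      (Ok.sing (by omega)) (Lt.sing (by omega)) (Lt.sing (by omega)) (Lt.sing (by omega))
    have e2 := H {0} {3} {4} {5} (Ok.sing (by omega)) (Ok.sing (by omega)) (Ok.sing (by omega))
      (Ok.sing (by omega)) (Lt.sing (by omega)) (Lt.sing (by omega)) (Lt.sing (by omega))
    simp only [blk, singleton_biUnion, biUnion_insert, List.getD_cons_zero,
      List.getD_cons_succ] at e1 e2
    exact hc ({1} ∪ {2}) ({3} ∪ {4}) ((Ok.sing (by omega)).union (Ok.sing (by omega)))
      ((Ok.sing (by omega)).union (Ok.sing (by omega)))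
      (((Lt.sing (by omega)).union_right (Lt.sing (by omega))).union_left
        ((Lt.sing (by omega)).union_right (Lt.sing (by omega))))
      (e1.symm.trans e2)
  · intro A B C D hA hB hC hD hAB hBC hCD he
    have := H A B C D hA hB hC hD hAB hBC hCD
    simp only [blk, singleton_biUnion, biUnion_insert, List.getD_cons_zero,
      List.getD_cons_succ] at this
    exact this he

/-- Two pairs (possibly degenerate) with the same value agree; first half. -/
theorem pairs_aux (hM : 4 ≤ M) (hN : 6 ≤ N0) (hinv : Inv M (N0 + M) h)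
    (hc : ∀ A B, Ok N0 A → Ok N0 B → Lt A B → h A ≠ h B)
    (ha : ∀ A B, Ok N0 A → Ok N0 B → Lt A B → h A ≠ h (A ∪ B))
    (hb : ∀ A B, Ok N0 A → Ok N0 B → Lt A B → h B ≠ h (A ∪ B))
    (hh : ∀ A B C, Ok N0 A → Ok N0 B → Ok N0 C → Lt A B → Lt B C → h (A ∪ C) = h (A ∪ B ∪ C))
    (a a' b b' : ℕ) (haa : a ≤ a') (hbb : b ≤ b') (ha' : a' < N0) (hb' : b' < N0)
    (hab : a < b) : h ({a} ∪ {a'}) ≠ h ({b} ∪ {b'}) := by
  intro he
  have s : ∀ {i : ℕ}, i < N0 → Ok N0 {i} := fun h => Ok.sing h
  rcases haa.lt_or_eq with h1 | rfl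
  · -- a < a'
    rcases hbb.lt_or_eq with h2 | rfl
    · -- b < b'
      rcases lt_trichotomy a' b with h3 | rfl | h3
      · exact hc _ _ ((s (by omega)).union (s (by omega))) ((s (by omega)).union (s (by omega)))
          (((Lt.sing (by omega)).union_right (Lt.sing (by omega))).union_left
            ((Lt.sing (by omega)).union_right (Lt.sing (by omega)))) he
      · exact x2 hM hN hinv hc {a} {a'} {b'} (s (by omega)) (s (by omega)) (s (by omega))
          (Lt.sing (by omega)) (Lt.sing (by omega)) he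
      · rcases lt_trichotomy a' b' with h4 | rfl | h4
        · exact x3 hM hN hinv hc {a} {b} {a'} {b'} (s (by omega)) (s (by omega)) (s (by omega))
            (s (by omega)) (Lt.sing (by omega)) (Lt.sing (by omega)) (Lt.sing (by omega)) he
        · -- A ∪ C ~ B ∪ C
          have h5 := hh {a} {b} {a'} (s (by omega)) (s (by omega)) (s (by omega))
            (Lt.sing (by omega)) (Lt.sing (by omega))
          refine hb {a} ({b} ∪ {a'}) (s (by omega)) ((s (by omega)).union (s (by omega)))
            ((Lt.sing (by omega)).union_right (Lt.sing (by omega))) ?_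
          rw [← union_assoc, ← h5, he]
        · exact x4 hM hN hinv hc {a} {b} {b'} {a'} (s (by omega)) (s (by omega)) (s (by omega))
            (s (by omega)) (Lt.sing (by omega)) (Lt.sing (by omega)) (Lt.sing (by omega)) he
    · -- b = b'
      rw [union_self] at he
      rcases lt_trichotomy a' b with h3 | rfl | h3
      · exact hc _ _ ((s (by omega)).union (s (by omega))) (s (by omega))
          ((Lt.sing (by omega)).union_left (Lt.sing (by omega))) he
      · exact hb _ _ (s (by omega)) (s (by omega)) (Lt.sing (by omega)) he.symm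
      · exact x1 hM hN hinv hc {a} {b} {a'} (s (by omega)) (s (by omega)) (s (by omega))
          (Lt.sing (by omega)) (Lt.sing (by omega)) he.symm
  · -- a = a'
    rw [union_self] at he
    exact hc _ _ (s (by omega)) ((s (by omega)).union (s (by omega)))
      ((Lt.sing (by omega)).union_right (Lt.sing (by omega))) he

theorem pairs_aux2 (hM : 4 ≤ M) (hN : 6 ≤ N0) (hinv : Inv M (N0 + M) h)
    (ha : ∀ A B, Ok N0 A → Ok N0 B → Lt A B → h A ≠ h (A ∪ B))
    (hh : ∀ A B C, Ok N0 A → Ok N0 B → Ok N0 C → Lt A B → Lt B C → h (A ∪ C) = h (A ∪ B ∪ C))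
    (a a' b' : ℕ) (haa : a ≤ a') (hb' : b' < N0)
    (hab : a' < b') : h ({a} ∪ {a'}) ≠ h ({a} ∪ {b'}) := by
  intro he
  have s : ∀ {i : ℕ}, i < N0 → Ok N0 {i} := fun h => Ok.sing h
  rcases haa.lt_or_eq with h1 | rfl
  · have h5 := hh {a} {a'} {b'} (s (by omega)) (s (by omega)) (s (by omega))
      (Lt.sing (by omega)) (Lt.sing (by omega))
    refine ha ({a} ∪ {a'}) {b'} ((s (by omega)).union (s (by omega))) (s (by omega))
      ((Lt.sing (by omega)).union_left (Lt.sing (by omega))) ?_
    rw [← h5, he]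
  · rw [union_self] at he
    exact ha _ _ (s (by omega)) (s (by omega)) (Lt.sing (by omega)) he

theorem pairs (hM : 4 ≤ M) (hN : 6 ≤ N0) (hinv : Inv M (N0 + M) h)
    (hc : ∀ A B, Ok N0 A → Ok N0 B → Lt A B → h A ≠ h B)
    (ha : ∀ A B, Ok N0 A → Ok N0 B → Lt A B → h A ≠ h (A ∪ B))
    (hb : ∀ A B, Ok N0 A → Ok N0 B → Lt A B → h B ≠ h (A ∪ B))
    (hh : ∀ A B C, Ok N0 A → Ok N0 B → Ok N0 C → Lt A B → Lt B C → h (A ∪ C) = h (A ∪ B ∪ C))
    (a a' b b' : ℕ) (haa : a ≤ a') (hbb : b ≤ b') (ha' : a' < N0) (hb' : b' < N0)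
    (he : h ({a} ∪ {a'}) = h ({b} ∪ {b'})) : a = b ∧ a' = b' := by
  rcases lt_trichotomy a b with h1 | rfl | h1
  · exact absurd he (pairs_aux hM hN hinv hc ha hb hh a a' b b' haa hbb ha' hb' h1)
  · refine ⟨rfl, ?_⟩
    rcases lt_trichotomy a' b' with h2 | h2 | h2
    · exact absurd he (pairs_aux2 hM hN hinv ha hh a a' b' haa hb' h2)
    · exact h2
    · exact absurd he.symm (pairs_aux2 hM hN hinv ha hh a b' a' hbb ha' h2)
  · exact absurd he.symm (pairs_aux hM hN hinv hc ha hb hh b b' a a' hbb haa hb' ha' h1)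

end excl

section main

variable {m M N0 : ℕ} {h : Finset ℕ → ℕ}

/-- Case 4: the form depends only on the minimum and the maximum. -/
theorem case4 (hM : 4 ≤ M) (hN : m + 6 ≤ N0) (hinv : Inv M (N0 + M) h)
    (hc : ∀ A B, Ok N0 A → Ok N0 B → Lt A B → h A ≠ h B)
    (ha : ∀ A B, Ok N0 A → Ok N0 B → Lt A B → h A ≠ h (A ∪ B))
    (hb : ∀ A B, Ok N0 A → Ok N0 B → Lt A B → h B ≠ h (A ∪ B))
    (hh : ∀ A B C, Ok N0 A → Ok N0 B → Ok N0 C → Lt A B → Lt B C → h (A ∪ C) = h (A ∪ B ∪ C))
    (F G : Finset ℕ) (hF : F.Nonempty) (hG : G.Nonempty) (hFm : F ⊆ range m) (hGm : G ⊆ range m) :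
    h F = h G ↔ F.min = G.min ∧ F.max = G.max := by
  have key : ∀ X : Finset ℕ, ∀ hX : X.Nonempty, X ⊆ range m →
      h X = h ({X.min' hX} ∪ {X.max' hX}) := by
    intro X hX hXm
    set B := (X.erase (X.min' hX)).erase (X.max' hX) with hB
    have hmin := X.min'_mem hX
    have hmax := X.max'_mem hX
    have hmin' := mem_range.1 (hXm hmin)
    have hmax' := mem_range.1 (hXm hmax)
    have hBm : ∀ i ∈ B, i ∈ X ∧ X.min' hX < i ∧ i < X.max' hX := by
      intro i hi
      rw [hB, mem_erase, mem_erase] at hi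
      exact ⟨hi.2.2, lt_of_le_of_ne (min'_le _ _ hi.2.2) (Ne.symm hi.2.1),
        lt_of_le_of_ne (le_max' _ _ hi.2.2) hi.1⟩
    have hBX : X = {X.min' hX} ∪ B ∪ {X.max' hX} := by
      ext i
      simp only [mem_union, mem_singleton]
      constructor
      · intro hi
        by_cases h1 : i = X.min' hX
        · exact Or.inl (Or.inl h1)
        by_cases h2 : i = X.max' hX
        · exact Or.inr h2
        · left; right
          rw [hB, mem_erase, mem_erase]
          exact ⟨h2, h1, hi⟩
      · rintro ((rfl | h1) | rfl)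
        · exact hmin
        · exact (hBm i h1).1
        · exact hmax
    by_cases hBe : B.Nonempty
    · have h1 := hh {X.min' hX} B {X.max' hX} (Ok.sing (by omega))
        ⟨hBe, fun i hi => by have := (hBm i hi).2.2; omega⟩ (Ok.sing (by omega))
        (fun i hi j hj => by rw [mem_singleton] at hi; subst hi; exact (hBm j hj).2.1)
        (fun i hi j hj => by rw [mem_singleton] at hj; subst hj; exact (hBm i hi).2.2)
      rw [← hBX] at h1
      exact h1.symm
    · rw [not_nonempty_iff_eq_empty] at hBe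
      rw [hBe, union_empty] at hBX
      exact congrArg h hBX
  rw [key F hF hFm, key G hG hGm, min_iff hF hG, max_iff hF hG]
  constructor
  · intro he
    have h1 := mem_range.1 (hFm (F.max'_mem hF))
    have h2 := mem_range.1 (hGm (G.max'_mem hG))
    exact pairs hM (by omega) hinv hc ha hb hh _ _ _ _ (F.min'_le_max' hF) (G.min'_le_max' hG)
      (by omega) (by omega) he
  · rintro ⟨h1, h2⟩
    rw [h1, h2]

/-- **Taylor's canonical theorem** for block-invariant functions. -/
theorem canonical (hM : m + 4 ≤ M) (hN : m + 6 ≤ N0) (hinv : Inv M (N0 + M) h) :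
    Canonical m h := by
  have dc := dich2 hinv (by omega) {0} {1} (by decide) (by decide)
  have da := dich2 hinv (by omega) {0} {0, 1} (by decide) (by decide)
  have db := dich2 hinv (by omega) {1} {0, 1} (by decide) (by decide)
  have dh := dich3 hinv (by omega) {0, 2} {0, 1, 2} (by decide) (by decide)
  simp only [blk, singleton_biUnion, biUnion_insert, List.getD_cons_zero,
      List.getD_cons_succ, ← union_assoc] at dc da db dh
  rcases dc with hc | hc
  · exact Or.inl fun F G hF hG hFm hGm => case1 hN hc F G hF hG hFm hGm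
  rcases da with ha | ha
  · exact Or.inr (Or.inl fun F G hF hG hFm hGm => case2 hN hc ha F G hF hG hFm hGm)
  rcases db with hb | hb
  · exact Or.inr (Or.inr (Or.inl fun F G hF hG hFm hGm => case3 hN hc hb F G hF hG hFm hGm))
  rcases dh with hh | hh
  · exact Or.inr (Or.inr (Or.inr (Or.inl fun F G hF hG hFm hGm =>
      case4 (by omega) hN hinv hc ha hb hh F G hF hG hFm hGm)))
  · exact Or.inr (Or.inr (Or.inr (Or.inr fun F G hF hG hFm hGm =>
      case5 hM hN hinv ha hh F G hF hG hFm hGm)))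

end main

end Pool.Agent.J6H25.Canon
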