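import Pool.Agent.J6H25.Canon.Rel
import Pool.Agent.J6H25.Canon.Taylor

set_option autoImplicit false

/-!
# Taylor's canonical theorem for the sums of consecutive prime gaps
-/

namespace Pool.Agent.J6H25.Canon

open Finset Filter
open Pool.Agent.H256R2.SC (ff)
open Pool.Agent.Y898.PolyGaps (Cl)

/-- From a block map on `ℕ` to a sequence of blocks. -/
theorem blocks_of_bm {M N : ℕ} {β : ℕ → Finset ℕ} (hβ : BM M N β) :
    Blocks (fun l : Fin M => (univ.filter fun i : Fin N => (i : ℕ) ∈ β l)) := by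
  refine ⟨fun l => ?_, fun l l' hll i hi j hj => ?_⟩
  · obtain ⟨h1, h2⟩ := hβ.1 l l.2
    obtain ⟨i, hi⟩ := h1
    exact ⟨⟨i, h2 i hi⟩, by simp [hi]⟩
  · simp only [mem_filter, mem_univ, true_and] at hi hj
    exact Fin.lt_def.2 (hβ.2 l l' (Fin.lt_def.1 hll) l'.2 i hi j hj)

/-- Sums over unions of blocks. -/
theorem sum_blocks {M N : ℕ} {β : ℕ → Finset ℕ} (hβ : BM M N β) (w : ℕ → ℤ) {I : Finset ℕ}
    (hI : I ⊆ range M) :
    ∑ l ∈ (univ.filter fun l : Fin M => (l : ℕ) ∈ I),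
      ∑ i ∈ (univ.filter fun i : Fin N => (i : ℕ) ∈ β l), w i = ∑ i ∈ I.biUnion β, w i := by
  classical
  have hin : ∀ l ∈ I, ∑ i ∈ (univ.filter fun i : Fin N => (i : ℕ) ∈ β l), w i
      = ∑ i ∈ β l, w i := by
    intro l hl
    have h2 := (hβ.1 l (mem_range.1 (hI hl))).2
    refine sum_bij (fun i _ => (i : ℕ)) ?_ ?_ ?_ ?_
    · intro i hi
      simpa using hi
    · intro i _ j _ h
      exact Fin.ext h
    · intro i hi
      exact ⟨⟨i, h2 i hi⟩, by simpa using hi, rfl⟩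
    · intro i _
      rfl
  have hdisj : Set.PairwiseDisjoint (I : Set ℕ) β := by
    intro l hl l' hl' hne
    rw [Function.onFun, Finset.disjoint_left]
    intro i hi hi'
    have h1 := mem_range.1 (hI hl)
    have h2 := mem_range.1 (hI hl')
    rcases lt_or_gt_of_ne hne with h | h
    · exact absurd (hβ.2 l l' h h2 i hi i hi') (lt_irrefl _)
    · exact absurd (hβ.2 l' l h h1 i hi' i hi) (lt_irrefl _)
  rw [sum_biUnion hdisj]
  refine sum_bij (fun l _ => (l : ℕ)) ?_ ?_ ?_ ?_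
  · intro l hl
    simpa using hl
  · intro l _ l' _ h
    exact Fin.ext h
  · intro l hl
    exact ⟨⟨l, mem_range.1 (hI hl)⟩, by simpa using hl, rfl⟩
  · intro l hl
    exact hin l (by simpa using hl)

/-- **Canonical sums of gaps next to a record gap.** -/
theorem gap_sums (m s : ℕ) : ∃ c C : ℝ, 0 < c ∧ 0 < C ∧ ∀ᶠ x : ℝ in atTop,
    ∀ H : ℝ, 1 ≤ H → H ≤ c * ff x → ∀ g : Fin s → ℤ → ℕ,
    x ^ (7 / 8 : ℝ) ≤ (Set.ncard {n : ℕ | n ∈ Cl c C x H m (fun _ => True) ∧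
      ∀ e : Fin s, Canonical m (fun F => g e (∑ i ∈ F,
        ((Nat.nth Nat.Prime (n + i + 1) : ℤ) - Nat.nth Nat.Prime (n + i))))} : ℝ) := by
  classical
  obtain ⟨c, C, hc, hC, h⟩ := mt_rel (m + 4) (m + 6 + (m + 4)) (Fin s × Finset (Fin (m + 4)))
  refine ⟨c, C, hc, hC, ?_⟩
  filter_upwards [h] with x hx H hH hHc g
  refine (hx H hH hHc (fun y I => g I.1 (∑ l ∈ I.2, y l))).trans ?_
  rw [Nat.cast_le]
  refine Set.ncard_le_ncard ?_ ((Pool.Agent.Y898.PolyGaps.cl_finite c C x H m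
    (fun _ => True)).subset fun n hn => hn.1)
  rintro n ⟨h1, h2, h3, h4, h5⟩
  refine ⟨⟨h1, ?_, h3, fun i hi => h4 i (by omega), trivial⟩, ?_⟩
  · refine le_trans ?_ h2
    rw [Nat.cast_le]
    exact (Nat.nth_strictMono Nat.infinite_setOfPred_prime).monotone (by omega)
  · intro s'
    refine canonical (M := m + 4) (N0 := m + 6) le_rfl le_rfl ?_
    intro β β' hβ hβ' I J hI hJ
    have e := h5 _ _ (blocks_of_bm hβ) (blocks_of_bm hβ')
      (s', univ.filter fun l : Fin (m + 4) => (l : ℕ) ∈ I)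
      (s', univ.filter fun l : Fin (m + 4) => (l : ℕ) ∈ J)
    simp only [] at e
    rw [sum_blocks hβ (fun i => (Nat.nth Nat.Prime (n + i + 1) : ℤ) - Nat.nth Nat.Prime (n + i)) hI,
      sum_blocks hβ (fun i => (Nat.nth Nat.Prime (n + i + 1) : ℤ) - Nat.nth Nat.Prime (n + i)) hJ,
      sum_blocks hβ' (fun i => (Nat.nth Nat.Prime (n + i + 1) : ℤ) - Nat.nth Nat.Prime (n + i)) hI,
      sum_blocks hβ' (fun i => (Nat.nth Nat.Prime (n + i + 1) : ℤ) - Nat.nth Nat.Prime (n + i)) hJ] at e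
    exact e

end Pool.Agent.J6H25.Canon
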