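import Pool.Agent.Y898.MTC

set_option autoImplicit false

/-!
# The Milliken-Taylor theorem for gaps, with equality patterns in place of colours
-/

namespace Pool.Agent.J6H25.Canon

open Finset Filter
open Pool.Agent.H256R2.SC (ff)

/-- Sequences `I 0 < I 1 < … < I (k-1)` of nonempty blocks. -/
def Blocks {k m : ℕ} (I : Fin k → Finset (Fin m)) : Prop :=
  (∀ l, (I l).Nonempty) ∧ ∀ l l', l < l' → ∀ i ∈ I l, ∀ j ∈ I l', i < j

/-- The Milliken-Taylor theorem for gaps next to a record gap, where a `k`-tuple is coloured by the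
equality pattern of finitely many functions. -/
theorem mt_rel (k m : ℕ) (ι : Type) [Fintype ι] : ∃ c C : ℝ, 0 < c ∧ 0 < C ∧
    ∀ᶠ x : ℝ in atTop, ∀ H : ℝ, 1 ≤ H → H ≤ c * ff x →
    ∀ Φ : (Fin k → ℤ) → ι → ℕ,
    x ^ (7 / 8 : ℝ) ≤ (Set.ncard (Pool.Agent.Y898.PolyGaps.Cl c C x H m (fun v =>
      ∀ I I' : Fin k → Finset (Fin m), Blocks I → Blocks I' → ∀ a b : ι,
        (Φ (fun l => ∑ i ∈ I l, v i) a = Φ (fun l => ∑ i ∈ I l, v i) b ↔
          Φ (fun l => ∑ i ∈ I' l, v i) a = Φ (fun l => ∑ i ∈ I' l, v i) b))) : ℝ) := by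
  classical
  obtain ⟨c, C, hc, hC, h⟩ := Pool.Agent.Y898.MTC.mt_gaps k m (Fintype.card (ι → ι → Bool))
  refine ⟨c, C, hc, hC, ?_⟩
  filter_upwards [h] with x hx H hH hHc Φ
  let e := Fintype.equivFin (ι → ι → Bool)
  refine (hx H hH hHc (fun y => e (fun a b => decide (Φ y a = Φ y b)))).trans ?_
  rw [Nat.cast_le]
  refine Set.ncard_le_ncard ?_ (Pool.Agent.Y898.PolyGaps.cl_finite _ _ _ _ _ _)
  rintro n ⟨h1, h2, h3, h4, col, hcol⟩
  refine ⟨h1, h2, h3, h4, fun I I' hI hI' a b => ?_⟩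
  have e1 := (hcol I hI.1 hI.2).trans (hcol I' hI'.1 hI'.2).symm
  have e2 := congrFun (congrFun (e.injective e1) a) b
  simpa using e2

end Pool.Agent.J6H25.Canon
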